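import Pool.Agent.Y119.ML.LI

set_option autoImplicit false

/-!
# Project PY (helper40), package INP: the graded family of the monomials
-/

open Finset

namespace Pool.Agent.P8H78.PL

section

variable {n W : ℕ}

/-- the index with the weight one less -/
def pd (v : Fin n × Fin W) : Fin n × Fin W :=
  (v.1, ⟨(v.2 : ℕ) - 1, lt_of_le_of_lt (Nat.sub_le _ _) v.2.2⟩)

/-- the unit vector -/
def dl (v : Fin n × Fin W) : Fin n × Fin W → ℕ := Pi.single v 1

/-- what is added -/
def ad (v : Fin n × Fin W) : Fin n × Fin W → ℕ := if (v.2 : ℕ) = 0 then 0 else dl (pd v)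

def kap (v : Fin n × Fin W) : Option (Fin n) := if (v.2 : ℕ) = 0 then some v.1 else none

def sg (v : Fin n × Fin W) : ℚ := if (v.2 : ℕ) = 0 then -1 else 1

def dg (e : Fin n × Fin W → ℕ) : ℕ := ∑ v, ((v.2 : ℕ) + 1) * e v

def SS (n W N : ℕ) : Finset (Fin n × Fin W → ℕ) :=
  (Fintype.piFinset fun _ => range (N + 1)).filter (fun e => ∑ v, e v ≤ N)

open Classical in
noncomputable def nn (κ : Option (Fin n)) (b b' : Fin n × Fin W → ℕ) : ℚ :=
  ∑ v, if kap v = κ ∧ b' + dl v = b + ad v then sg v * b v else 0

theorem mem_SS {N : ℕ} {e : Fin n × Fin W → ℕ} : e ∈ SS n W N ↔ ∑ v, e v ≤ N := by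
  unfold SS
  rw [mem_filter, Fintype.mem_piFinset]
  refine ⟨fun h => h.2, fun h => ⟨fun v => ?_, h⟩⟩
  have := single_le_sum (f := e) (fun _ _ => Nat.zero_le _) (mem_univ v)
  rw [mem_range]
  omega

theorem dl_self (v : Fin n × Fin W) : dl v v = 1 := by simp [dl]

theorem dl_ne {v w : Fin n × Fin W} (h : w ≠ v) : dl v w = 0 := by simp [dl, h]

theorem sum_dl (v : Fin n × Fin W) : ∑ w, dl v w = 1 := by
  rw [sum_eq_single v (fun w _ h => dl_ne h) (fun h => absurd (mem_univ _) h), dl_self]

theorem dg_add (e e' : Fin n × Fin W → ℕ) : dg (e + e') = dg e + dg e' := by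
  simp only [dg, Pi.add_apply, mul_add, sum_add_distrib]

theorem dg_dl (v : Fin n × Fin W) : dg (dl v) = (v.2 : ℕ) + 1 := by
  unfold dg
  rw [sum_eq_single v (fun w _ h => by rw [dl_ne h, mul_zero]) (fun h => absurd (mem_univ _) h),
    dl_self, mul_one]

theorem dg_ad (v : Fin n × Fin W) : dg (ad v) = (v.2 : ℕ) := by
  unfold ad
  split_ifs with h
  · rw [h]; simp [dg]
  · rw [dg_dl]
    show (v.2 : ℕ) - 1 + 1 = _
    omega

theorem dg_zero {e : Fin n × Fin W → ℕ} (h : dg e = 0) : e = 0 := by
  unfold dg at h
  rw [sum_eq_zero_iff] at h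
  funext v
  have := h v (mem_univ v)
  rcases Nat.mul_eq_zero.1 this with h1 | h1
  · omega
  · exact h1

theorem pd_ne {v : Fin n × Fin W} (h : (v.2 : ℕ) ≠ 0) : pd v ≠ v := by
  intro he
  have := congrArg (fun w : Fin n × Fin W => (w.2 : ℕ)) he
  simp only [pd] at this
  omega

theorem pd_inj {v w : Fin n × Fin W} (hv : (v.2 : ℕ) ≠ 0) (hw : (w.2 : ℕ) ≠ 0) (h : pd v = pd w) :
    v = w := by
  have h1 := congrArg (fun w : Fin n × Fin W => (w.2 : ℕ)) h
  have h2 := congrArg (fun w : Fin n × Fin W => w.1) h
  simp only [pd] at h1 h2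
  exact Prod.ext h2 (Fin.ext (by omega))

theorem kap_eq {v w : Fin n × Fin W} (h : kap v = kap w) :
    (v = w) ∨ ((v.2 : ℕ) ≠ 0 ∧ (w.2 : ℕ) ≠ 0) := by
  unfold kap at h
  by_cases h1 : (v.2 : ℕ) = 0
  · by_cases h2 : (w.2 : ℕ) = 0
    · rw [if_pos h1, if_pos h2] at h
      left
      exact Prod.ext (Option.some.inj h) (Fin.ext (by omega))
    · rw [if_pos h1, if_neg h2] at h
      exact absurd h (by simp)
  · by_cases h2 : (w.2 : ℕ) = 0
    · rw [if_neg h1, if_pos h2] at h
      exact absurd h.symm (by simp)
    · exact Or.inr ⟨h1, h2⟩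

theorem sg_ne (v : Fin n × Fin W) : sg v ≠ 0 := by
  unfold sg
  split_ifs <;> norm_num

/-- the neighbour `b - δ_v + ad v` -/
theorem nb {N : ℕ} {b : Fin n × Fin W → ℕ} (hb : b ∈ SS n W N) {v : Fin n × Fin W} (hv : b v ≠ 0) :
    ∃ c ∈ SS n W N, c + dl v = b + ad v := by
  refine ⟨fun w => b w - dl v w + ad v w, ?_, ?_⟩
  · rw [mem_SS] at hb ⊢
    have h1 : ∑ w, (b w - dl v w + ad v w) + 1 ≤ ∑ w, b w + 1 := by
      have h2 : ∑ w, ad v w ≤ 1 := by
        unfold ad
        split_ifs
        · simp
        · rw [sum_dl]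
      have h3 : ∑ w, (b w - dl v w) + 1 = ∑ w, b w := by
        rw [← sum_dl v, ← sum_add_distrib]
        refine sum_congr rfl fun w _ => ?_
        by_cases h : w = v
        · rw [h, dl_self]; omega
        · rw [dl_ne h]; omega
      rw [sum_add_distrib]
      omega
    omega
  · funext w
    simp only [Pi.add_apply]
    by_cases h : w = v
    · rw [h, dl_self]; omega
    · rw [dl_ne h]; omega

end

section

variable {F : Type} [Field F] {n W : ℕ}

def M (L : Fin n × Fin W → F) (e : Fin n × Fin W → ℕ) : F := ∏ v, L v ^ e v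

theorem M_add (L : Fin n × Fin W → F) (e e' : Fin n × Fin W → ℕ) :
    M L (e + e') = M L e * M L e' := by
  simp only [M, Pi.add_apply, pow_add, prod_mul_distrib]

theorem M_dl (L : Fin n × Fin W → F) (v : Fin n × Fin W) : M L (dl v) = L v := by
  unfold M
  rw [prod_eq_single v (fun w _ h => by rw [dl_ne h, pow_zero]) (fun h => absurd (mem_univ _) h),
    dl_self, pow_one]

variable [CharZero F] [Algebra ℚ F]

theorem D_prod (D : Derivation ℚ F F) (L : Fin n × Fin W → F) (hL : ∀ v, L v ≠ 0)
    (e : Fin n × Fin W → ℕ) (s : Finset (Fin n × Fin W)) :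
    D (∏ v ∈ s, L v ^ e v) = ∑ v ∈ s, (e v : F) * (D (L v) / L v) * ∏ v ∈ s, L v ^ e v := by
  classical
  induction s using Finset.induction_on with
  | empty => simp
  | insert a s ha ih =>
    rw [prod_insert ha, Derivation.leibniz, ih, sum_insert ha, smul_eq_mul, smul_eq_mul,
      Derivation.leibniz_pow]
    have h1 : ∑ v ∈ s, (e v : F) * (D (L v) / L v) * (L a ^ e a * ∏ v ∈ s, L v ^ e v) =
        L a ^ e a * ∑ v ∈ s, (e v : F) * (D (L v) / L v) * ∏ v ∈ s, L v ^ e v := by
      rw [mul_sum]
      exact sum_congr rfl fun w _ => by ring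
    rw [h1]
    rcases Nat.eq_zero_or_pos (e a) with h | h
    · rw [h]; simp
    · obtain ⟨j, hj⟩ : ∃ j, e a = j + 1 := ⟨e a - 1, by omega⟩
      rw [hj, Nat.add_sub_cancel, nsmul_eq_mul, smul_eq_mul, pow_succ]
      have h2 : D (L a) / L a * L a = D (L a) := div_mul_cancel₀ _ (hL a)
      linear_combination (-(((j + 1 : ℕ) : F) * L a ^ j * ∏ v ∈ s, L v ^ e v)) * h2

theorem gen (D : Derivation ℚ F F) (K : Subfield F) (hDK : ∀ x ∈ K, D x ∈ K)
    (u : Option (Fin n) → F) (hu : ∀ i, u i ∈ K)
    (hprim : ∀ (c : Option (Fin n) → F) (g : F), (∀ i, c i ∈ K) → (∀ i, D (c i) = 0) → g ∈ K →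
      D g = ∑ i, c i * u i → ∀ i, c i = 0)
    (L : Fin n × Fin W → F) (hL : ∀ v, L v ≠ 0)
    (hD : ∀ v, D (L v) = (sg v : F) * u (kap v) * M L (ad v)) (N : ℕ)
    (g : (Fin n × Fin W → ℕ) → F) (hg : ∀ e, g e ∈ K) (hs : ∑ e ∈ SS n W N, g e * M L e = 0) :
    ∀ e ∈ SS n W N, g e = 0 := by
  classical
  have main := Pool.Agent.Y119.ML.graded_indep D K hDK (κ := Option (Fin n))
    (B := {e : Fin n × Fin W → ℕ // e ∈ SS n W N}) u hu hprim (fun b => dg b.1) (fun b => M L b.1)
    (fun κ b b' => nn κ b.1 b'.1) ?_ ?_ ?_ ?_ (fun b => g b.1) (fun b => hg b.1) (by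
      rw [← hs]
      exact sum_coe_sort (SS n W N) (fun e => g e * M L e))
  · intro e he
    exact main ⟨e, he⟩
  · -- degrees
    intro κ b b' h
    obtain ⟨v, -, hv⟩ := exists_ne_zero_of_sum_ne_zero h
    split_ifs at hv with hc
    · have h1 := congrArg dg hc.2
      rw [dg_add, dg_add, dg_dl, dg_ad] at h1
      show dg b.1 = dg b'.1 + 1
      omega
    · exact absurd rfl hv
  · -- the derivative
    intro b
    have e1 : ∀ b' : {e : Fin n × Fin W → ℕ // e ∈ SS n W N},
        (∑ κ, ((nn κ b.1 b'.1 : ℚ) : F) * u κ) * M L b'.1 =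
        ∑ v, if b'.1 + dl v = b.1 + ad v then (sg v : F) * b.1 v * u (kap v) * M L b'.1 else 0 := by
      intro b'
      have h1 : ∀ κ, ((nn κ b.1 b'.1 : ℚ) : F) * u κ =
          ∑ v, if kap v = κ ∧ b'.1 + dl v = b.1 + ad v then (sg v : F) * b.1 v * u κ else 0 := by
        intro κ
        unfold nn
        push_cast
        rw [sum_mul]
        refine sum_congr rfl fun v _ => ?_
        split_ifs <;> simp
      simp only [h1]
      rw [sum_comm, sum_mul]
      refine sum_congr rfl fun v _ => ?_
      rw [sum_eq_single (kap v)]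
      · by_cases h : b'.1 + dl v = b.1 + ad v
        · rw [if_pos ⟨rfl, h⟩, if_pos h]
        · rw [if_neg (fun hh => h hh.2), if_neg h, zero_mul]
      · intro κ _ hκ
        rw [if_neg (fun hh => hκ hh.1.symm)]
      · intro h
        exact absurd (mem_univ _) h
    show D (M L b.1) = _
    rw [sum_congr rfl (fun b' _ => e1 b'), sum_comm]
    unfold M
    rw [D_prod D L hL b.1 univ]
    refine sum_congr rfl fun v _ => ?_
    by_cases hv : b.1 v = 0
    · rw [hv]
      simp
    · obtain ⟨c, hc, hcv⟩ := nb b.2 hv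
      rw [sum_eq_single ⟨c, hc⟩]
      · rw [if_pos hcv]
        have h2 := congrArg (M L) hcv
        rw [M_add, M_add, M_dl] at h2
        have h3 : M L c = M L b.1 * M L (ad v) / L v := by
          rw [eq_div_iff (hL v)]; exact h2
        show (b.1 v : F) * (D (L v) / L v) * M L b.1 = (sg v : F) * b.1 v * u (kap v) * M L c
        rw [h3, hD v]
        ring
      · intro b' _ hb'
        rw [if_neg]
        intro h
        apply hb'
        apply Subtype.ext
        show b'.1 = c
        have h4 : b'.1 + dl v = c + dl v := h.trans hcv.symm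
        exact add_right_cancel h4
      · intro h
        exact absurd (mem_univ _) h
  · -- degree zero
    intro g' _ hg'd hg's b
    by_cases hb : dg b.1 = 0
    · have hb0 := dg_zero hb
      rw [sum_eq_single b] at hg's
      · have h1 : M L b.1 = 1 := by rw [hb0]; simp [M]
        rw [h1, mul_one] at hg's
        exact hg's
      · intro c _ hcb
        rw [hg'd c, zero_mul]
        intro h
        apply hcb
        apply Subtype.ext
        rw [hb0, dg_zero h]
      · intro h
        exact absurd (mem_univ _) h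
    · exact hg'd b hb
  · -- the top forms
    intro m l _ _ hld hl b
    have key : ∀ s : ℕ, ∀ (e : {e : Fin n × Fin W → ℕ // e ∈ SS n W N}) (v : Fin n × Fin W),
        (v.2 : ℕ) = s → e.1 v ≠ 0 → l e = 0 := by
      intro s
      induction s using Nat.strong_induction_on with
      | _ s ih =>
        intro e v hvs hev
        obtain ⟨c, hc, hcv⟩ := nb e.2 hev
        have h1 := hl (kap v) ⟨c, hc⟩
        -- the coefficient at `e`
        have hE : nn (kap v) e.1 c = sg v * e.1 v := by
          unfold nn
          rw [sum_eq_single v]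
          · rw [if_pos ⟨rfl, hcv⟩]
          · intro w _ hwv
            rw [if_neg]
            rintro ⟨hk, hw⟩
            rcases kap_eq hk with h | ⟨hw0, hv0⟩
            · exact hwv h
            · -- `c + δ_w = e + δ_(pd w)`, `c + δ_v = e + δ_(pd v)`
              have h2 := congrFun hw v
              have h3 := congrFun hcv v
              unfold ad at h2 h3
              rw [if_neg hw0] at h2
              rw [if_neg hv0] at h3
              simp only [Pi.add_apply] at h2 h3
              rw [dl_ne (Ne.symm hwv)] at h2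
              rw [dl_self, dl_ne (Ne.symm (pd_ne hv0))] at h3
              omega
          · intro h
            exact absurd (mem_univ _) h
        have hother : ∀ b, b ≠ e → ((nn (kap v) b.1 c : ℚ) : F) * l b = 0 := by
          intro b hbe
          by_cases hz : nn (kap v) b.1 c = 0
          · rw [hz]; simp
          · unfold nn at hz
            obtain ⟨w, -, hw⟩ := exists_ne_zero_of_sum_ne_zero hz
            split_ifs at hw with hcond
            · obtain ⟨hk, hcw⟩ := hcond
              have hwv : w ≠ v := by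
                rintro rfl
                apply hbe
                apply Subtype.ext
                have h4 : b.1 + ad w = e.1 + ad w := hcw.symm.trans hcv
                exact add_right_cancel h4
              rcases kap_eq hk with h | ⟨hw0, hv0⟩
              · exact absurd h hwv
              · have h2 := congrFun hcw (pd v)
                have h3 := congrFun hcv (pd v)
                unfold ad at h2 h3
                rw [if_neg hw0] at h2
                rw [if_neg hv0] at h3
                simp only [Pi.add_apply] at h2 h3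
                have hpp : pd v ≠ pd w := fun hh => hwv (pd_inj hw0 hv0 hh.symm)
                rw [dl_ne hpp] at h2
                rw [dl_self, dl_ne (pd_ne hv0)] at h3
                have hlt : ((pd v).2 : ℕ) < s := by
                  show (v.2 : ℕ) - 1 < s
                  omega
                rw [ih _ hlt b (pd v) rfl (by omega), mul_zero]
            · exact absurd rfl hw
        have h5 : ∑ b, ((nn (kap v) b.1 c : ℚ) : F) * l b = 0 := h1
        rw [sum_eq_single e (fun b _ hb => hother b hb) (fun h => absurd (mem_univ _) h), hE] at h5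
        rcases mul_eq_zero.1 h5 with h6 | h6
        · exfalso
          have h7 : sg v * (e.1 v : ℚ) = 0 := by exact_mod_cast h6
          rcases mul_eq_zero.1 h7 with h8 | h8
          · exact sg_ne v h8
          · exact hev (by exact_mod_cast h8)
        · exact h6
    by_cases hb0 : b.1 = 0
    · apply hld
      rw [hb0]
      show dg 0 ≠ m + 1
      simp [dg]
    · obtain ⟨v, hv⟩ : ∃ v, b.1 v ≠ 0 := by
        by_contra hcon
        push Not at hcon
        exact hb0 (funext hcon)
      exact key _ b v rfl hv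

end

end Pool.Agent.P8H78.PL
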