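import Pool.Agent.P8H78.PL.Gen
import Pool.Agent.Y119.ML.Frac

set_option autoImplicit false

/-!
# Project PY (helper40), package INP: the polylogarithms are algebraically independent
-/

open Finset PowerSeries

namespace Pool.Agent.P8H78.PL

open Pool.Agent.W924.LF (eul coeff_eul)
open Pool.Agent.Y119.ML

attribute [-instance] HahnSeries.powerSeriesAlgebra

/-- `Li_s(a x)` -/
noncomputable def li (a : ℤ) (s : ℕ) : ℚ⟦X⟧ := PowerSeries.mk fun m => (a : ℚ) ^ m / (m : ℚ) ^ s

theorem li_ne {a : ℤ} (ha : a ≠ 0) (s : ℕ) : li a s ≠ 0 := by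
  intro h
  have := congrArg (coeff 1) h
  simp [li] at this
  exact ha this

theorem eul_li_succ (a : ℤ) (s : ℕ) : X * d⁄dX ℚ (li a (s + 2)) = li a (s + 1) := by
  ext m
  cases m with
  | zero => simp [li]
  | succ m =>
    rw [mul_comm X, coeff_succ_mul_X, coeff_derivative]
    simp only [li, coeff_mk]
    have : ((m + 1 : ℕ) : ℚ) ≠ 0 := by positivity
    push_cast at this ⊢
    field_simp
    ring

theorem eul_li_one (a : ℤ) : (1 - PowerSeries.C (a : ℚ) * X) * (X * d⁄dX ℚ (li a 1)) =
    PowerSeries.C (a : ℚ) * X := by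
  have h : X * d⁄dX ℚ (li a 1) = PowerSeries.mk fun m => if m = 0 then 0 else (a : ℚ) ^ m := by
    ext m
    cases m with
    | zero => simp
    | succ m =>
      rw [mul_comm X, coeff_succ_mul_X, coeff_derivative]
      simp only [li, coeff_mk]
      have : ((m + 1 : ℕ) : ℚ) ≠ 0 := by positivity
      rw [if_neg (by omega)]
      push_cast at this ⊢
      field_simp
  rw [h]
  ext m
  rw [sub_mul, one_mul, map_sub, mul_assoc, coeff_C_mul, coeff_C_mul]
  cases m with
  | zero => simp
  | succ m =>
    rw [coeff_succ_X_mul, coeff_mk, coeff_mk, if_neg (by omega)]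
    cases m with
    | zero => simp
    | succ m =>
      rw [if_neg (by omega), coeff_X, if_neg (by omega)]
      ring

theorem io_ne {f : ℚ⟦X⟧} (hf : f ≠ 0) : io f ≠ 0 := fun h => hf (io_inj (by rw [h, map_zero]))

theorem eul_one {a : ℤ} (ha : a ≠ 0) : eul (io (li a 1)) = -uf a := by
  rw [eul_io, uf]
  have hv : pio (vf a) ≠ 0 := fun h => vf_ne a (pio_inj (by rw [h, map_zero]))
  rw [eq_neg_iff_add_eq_zero, add_div' _ _ _ hv, div_eq_zero_iff]
  left
  have h1 : vf a = 1 - Polynomial.C (a : ℚ) * Polynomial.X := by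
    unfold vf
    rw [if_neg ha]
  have h2 : pio (vf a) = io (1 - PowerSeries.C (a : ℚ) * X) := by
    rw [pio_apply, h1, Polynomial.coe_sub, Polynomial.coe_one, Polynomial.coe_mul, Polynomial.coe_C,
      Polynomial.coe_X]
  have h3 : Polynomial.X * Polynomial.derivative (vf a) = -(Polynomial.C (a : ℚ) * Polynomial.X) := by
    rw [h1, Polynomial.derivative_sub, Polynomial.derivative_one, Polynomial.derivative_C_mul_X]
    ring
  have h4 : pio (Polynomial.X * Polynomial.derivative (vf a)) = -io (PowerSeries.C (a : ℚ) * X) := by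
    rw [h3, map_neg, pio_apply, Polynomial.coe_mul, Polynomial.coe_C, Polynomial.coe_X]
  rw [h2, h4, ← map_mul, mul_comm, eul_li_one]
  ring

theorem inp_core (n W : ℕ) (α : Fin n → ℤ) (hα : Function.Injective α) (h0 : ∀ i, α i ≠ 0) :
    AlgebraicIndependent (Polynomial ℚ) (fun v : Fin n × Fin W => li (α v.1) (v.2 + 1)) := by
  classical
  rw [algebraicIndependent_iff]
  intro p hp
  set L : Fin n × Fin W → FF := fun v => io (li (α v.1) (v.2 + 1)) with hLdef
  have hL : ∀ v, L v ≠ 0 := fun v => io_ne (li_ne (h0 v.1) _)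
  let ν : Option (Fin n) → ℤ := fun o => o.elim 0 α
  have hν : Function.Injective ν := by
    rintro (_ | i) (_ | j) h
    · rfl
    · exact absurd h.symm (h0 j)
    · exact absurd h (h0 i)
    · rw [hα h]
  have hu0 : uf 0 = 1 := by
    unfold uf vf
    rw [if_pos rfl, Polynomial.derivative_X, mul_one]
    exact div_self fun h => Polynomial.X_ne_zero (pio_inj (by rw [h, map_zero]))
  have hD : ∀ v, eul (L v) = ((sg v : ℚ) : FF) * uf (ν (kap v)) * M L (ad v) := by
    intro v
    by_cases hv : (v.2 : ℕ) = 0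
    · have e1 : M L (ad v) = 1 := by
        unfold ad
        rw [if_pos hv]
        simp [M]
      have e2 : kap v = some v.1 := by unfold kap; rw [if_pos hv]
      have e3 : sg v = -1 := by unfold sg; rw [if_pos hv]
      rw [e1, e2, e3]
      show eul (io (li (α v.1) ((v.2 : ℕ) + 1))) = _
      rw [hv, eul_one (h0 v.1)]
      show -uf (α v.1) = ((-1 : ℚ) : FF) * uf (α v.1) * 1
      push_cast
      ring
    · have e1 : M L (ad v) = L (pd v) := by
        unfold ad
        rw [if_neg hv, M_dl]
      have e2 : kap v = none := by unfold kap; rw [if_neg hv]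
      have e3 : sg v = 1 := by unfold sg; rw [if_neg hv]
      rw [e1, e2, e3]
      obtain ⟨s, hs⟩ : ∃ s, (v.2 : ℕ) = s + 1 := ⟨(v.2 : ℕ) - 1, by omega⟩
      show eul (io (li (α v.1) ((v.2 : ℕ) + 1))) =
        ((1 : ℚ) : FF) * uf 0 * io (li (α v.1) ((v.2 : ℕ) - 1 + 1))
      rw [hs, hu0, eul_io, eul_li_succ]
      push_cast
      simp
  have main := gen eul KF (fun x hx => eul_mem hx) (fun o => uf (ν o)) (fun o => uf_mem _)
    (fun c g _ hc hg h => prim ν hν c g hc hg h) L hL hD p.totalDegree
    (fun e => pio (p.coeff (Finsupp.equivFunOnFinite.symm e))) (fun e => pio_mem _) ?_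
  · ext1 d
    rw [MvPolynomial.coeff_zero]
    by_contra hd
    have hdS : (d : Fin n × Fin W → ℕ) ∈ SS n W p.totalDegree := by
      rw [mem_SS]
      have h1 : d ∈ p.support := MvPolynomial.mem_support_iff.2 hd
      have h2 := MvPolynomial.le_totalDegree h1
      rw [Finsupp.sum_fintype _ _ (fun _ => rfl)] at h2
      exact h2
    have h3 := main _ hdS
    have e1 : (Finsupp.equivFunOnFinite.symm (d : Fin n × Fin W → ℕ)) = d := by
      ext v; rfl
    rw [e1] at h3
    apply hd
    apply pio_inj
    rw [map_zero]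
    exact h3
  · have h1 := congrArg io hp
    rw [map_zero, MvPolynomial.aeval_def, MvPolynomial.eval₂_eq', map_sum] at h1
    rw [← h1]
    symm
    have hinj : Function.Injective (fun d : (Fin n × Fin W) →₀ ℕ => (d : Fin n × Fin W → ℕ)) :=
      DFunLike.coe_injective
    rw [← sum_subset (s₁ := p.support.image (fun d : (Fin n × Fin W) →₀ ℕ => (d : Fin n × Fin W → ℕ)))]
    · rw [sum_image (fun x _ y _ h => hinj h)]
      refine sum_congr rfl fun d _ => ?_
      have e1 : (Finsupp.equivFunOnFinite.symm (d : Fin n × Fin W → ℕ)) = d := by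
        ext v; rfl
      rw [e1, map_mul, map_prod]
      congr 1
      unfold M
      exact prod_congr rfl fun v _ => by rw [map_pow]
    · intro e he
      obtain ⟨d, hd, rfl⟩ := mem_image.1 he
      rw [mem_SS]
      have h2 := MvPolynomial.le_totalDegree hd
      rw [Finsupp.sum_fintype _ _ (fun _ => rfl)] at h2
      exact h2
    · intro e _ he
      have : p.coeff (Finsupp.equivFunOnFinite.symm e) = 0 := by
        by_contra hne
        apply he
        refine mem_image.2 ⟨_, MvPolynomial.mem_support_iff.2 hne, ?_⟩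
        rfl
      rw [this, map_zero, zero_mul]

end Pool.Agent.P8H78.PL
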