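import Pool.Agent.P8H40.PL.Stm
import Pool.Agent.P8H78.PL.InpCore

set_option autoImplicit false

/-!
# Project PY (helper40), package INP
-/

namespace Pool.Agent.P8H78.PL

/-- the polylogarithms are algebraically independent -/
theorem inp : Pool.Agent.P8H40.PL.S_INP := fun n W α h1 h2 => inp_core n W α h1 h2

end Pool.Agent.P8H78.PL
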